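import Pool.Agent.H536R3.Final

set_option autoImplicit false
set_option linter.unusedVariables false

/-! A connected graph of bounded degree which is coarsely transitive and quasi-isometric to no
vertex-transitive graph. -/

namespace Pool.Agent.Results.MP_8f2dc9_al.NoTransitiveModel

open Pool.Agent.H536R3

universe u v

/-- `f` is a `(K, C)`-quasi-isometry between the vertex sets with their path metrics -/
def IsQI {V : Type u} {W : Type v} (X : SimpleGraph V) (Y : SimpleGraph W) (K C : ℝ)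
    (f : V → W) : Prop :=
  (∀ x x' : V, K⁻¹ * (X.dist x x' : ℝ) - C ≤ (Y.dist (f x) (f x') : ℝ) ∧
    (Y.dist (f x) (f x') : ℝ) ≤ K * (X.dist x x' : ℝ) + C) ∧
  ∀ y : W, ∃ x : V, (Y.dist y (f x) : ℝ) ≤ C

/-- `X` and `Y` are quasi-isometric -/
def QuasiIsometric {V : Type u} {W : Type v} (X : SimpleGraph V) (Y : SimpleGraph W) : Prop :=
  ∃ K C : ℝ, 1 ≤ K ∧ 0 ≤ C ∧ ∃ f : V → W, IsQI X Y K C f

/-- `X` is coarsely transitive, with constants uniform over all pairs of vertices -/
def CoarselyTransitive {V : Type u} (X : SimpleGraph V) : Prop :=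
  ∃ K C : ℝ, 1 ≤ K ∧ 0 ≤ C ∧ ∀ x y : V, ∃ f : V → V, IsQI X X K C f ∧ f x = y

/-- `X` is vertex-transitive -/
def VertexTransitive {V : Type u} (X : SimpleGraph V) : Prop :=
  ∀ x y : V, ∃ e : X ≃g X, e x = y

theorem coarsely_transitive_XX {α : ℝ} (h0 : 0 < α) (h1 : α < 1) :
    CoarselyTransitive (XX (st α)) := by
  classical
  obtain ⟨L, N, hLN⟩ := coarse_trans h0 h1
  refine ⟨L + 1, 2 * N, by
    have : (0 : ℝ) ≤ L := Nat.cast_nonneg L
    linarith, by positivity, ?_⟩
  intro x y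
  obtain ⟨f, f1, f2, f3, f4⟩ := hLN x y
  let g : KK (st α) × ℤ → KK (st α) × ℤ := fun z => if z = x then y else f z
  have hg : ∀ z, dX (st α) (g z) (f z) ≤ N := by
    intro z
    by_cases hz : z = x
    · simp only [g, if_pos hz]
      rw [hz, dX_comm]; exact f4
    · simp only [g, if_neg hz]
      rw [dX_self]; exact Nat.zero_le _
  refine ⟨g, ⟨?_, ?_⟩, by simp only [g, if_pos]⟩
  · intro a b
    have e1 := hg a
    have e2 := hg b
    have e3 := f1 a b
    have e4 := f2 a b
    have e5 : dX (st α) (g a) (g b) ≤ L * dX (st α) a b + 2 * N := by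
      have t1 := dX_tri (st α) (g a) (f a) (g b)
      have t2 := dX_tri (st α) (f a) (f b) (g b)
      rw [dX_comm (st α) (f b) (g b)] at t2
      omega
    have e6 : dX (st α) (f a) (f b) ≤ dX (st α) (g a) (g b) + 2 * N := by
      have t1 := dX_tri (st α) (f a) (g a) (f b)
      have t2 := dX_tri (st α) (g a) (g b) (f b)
      rw [dX_comm (st α) (f a) (g a)] at t1
      omega
    have e7 : dX (st α) a b ≤ L * (dX (st α) (g a) (g b) + 2 * N) :=
      e4.trans (Nat.mul_le_mul_left _ e6)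
    have c1 : (0 : ℝ) ≤ L := Nat.cast_nonneg L
    have c2 : (0 : ℝ) ≤ (dX (st α) a b : ℝ) := Nat.cast_nonneg _
    have c3 : (0 : ℝ) ≤ (dX (st α) (g a) (g b) : ℝ) := Nat.cast_nonneg _
    have c4 : (0 : ℝ) ≤ N := Nat.cast_nonneg N
    have e5' : (dX (st α) (g a) (g b) : ℝ) ≤ L * (dX (st α) a b : ℝ) + 2 * N := by
      exact_mod_cast e5
    have e7' : (dX (st α) a b : ℝ) ≤ L * ((dX (st α) (g a) (g b) : ℝ) + 2 * N) := by
      exact_mod_cast e7
    constructor
    · have c5 : (0 : ℝ) < (L : ℝ) + 1 := by linarith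
      rw [sub_le_iff_le_add, inv_mul_le_iff₀ c5]
      nlinarith
    · nlinarith
  · intro b
    obtain ⟨a, ha⟩ := f3 b
    refine ⟨a, ?_⟩
    have e1 := hg a
    rw [ha, dX_comm] at e1
    have e1' : (dX (st α) b (g a) : ℝ) ≤ N := by exact_mod_cast e1
    have c4 : (0 : ℝ) ≤ N := Nat.cast_nonneg N
    linarith

theorem not_qi {α : ℝ} (hα : Irrational α) (h0 : 0 < α) (h1 : α < 1) {W : Type u}
    (Y : SimpleGraph W) (hY : Y.Connected) (ht : VertexTransitive Y) :
    ¬ QuasiIsometric (XX (st α)) Y := by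
  rintro ⟨K, C, hK, hC, F, hF1, hF2⟩
  obtain ⟨A, hA⟩ := exists_nat_gt (K + C + K * C)
  have hKC : 0 ≤ K * C := mul_nonneg (by linarith) hC
  refine no_transitive hα h0 h1 hY ht F A ?_ ?_ ?_
  · intro x x'
    have e1 := (hF1 x x').2
    have c2 : (0 : ℝ) ≤ (dX (st α) x x' : ℝ) := Nat.cast_nonneg _
    have e2 : (Y.dist (F x) (F x') : ℝ) ≤ A * (dX (st α) x x' : ℝ) + A := by
      have : K * (dX (st α) x x' : ℝ) ≤ A * (dX (st α) x x' : ℝ) :=
        mul_le_mul_of_nonneg_right (by linarith) c2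
      linarith
    exact_mod_cast e2
  · intro x x'
    have e1 := (hF1 x x').1
    have c2 : (0 : ℝ) ≤ (Y.dist (F x) (F x') : ℝ) := Nat.cast_nonneg _
    have hK0 : 0 < K := by linarith
    rw [sub_le_iff_le_add, inv_mul_le_iff₀ hK0] at e1
    have e2 : (dX (st α) x x' : ℝ) ≤ A * (Y.dist (F x) (F x') : ℝ) + A := by
      have : K * (Y.dist (F x) (F x') : ℝ) ≤ A * (Y.dist (F x) (F x') : ℝ) :=
        mul_le_mul_of_nonneg_right (by linarith) c2
      nlinarith
    exact_mod_cast e2
  · intro y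
    obtain ⟨x, hx⟩ := hF2 y
    refine ⟨x, ?_⟩
    have e2 : (Y.dist y (F x) : ℝ) ≤ A := by linarith
    exact_mod_cast e2

/-- There is a connected graph of degree at most `14` which is coarsely transitive and
quasi-isometric to no connected vertex-transitive graph. -/
theorem result : ∃ (V : Type) (X : SimpleGraph V), X.Connected ∧
    (∀ x : V, (X.neighborSet x).Finite ∧ (X.neighborSet x).ncard ≤ 14) ∧
    CoarselyTransitive X ∧
    ∀ (W : Type u) (Y : SimpleGraph W), Y.Connected → VertexTransitive Y →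
      ¬ QuasiIsometric X Y := by
  have hα : Irrational (√2 - 1) := by
    have := irrational_sqrt_two.sub_intCast 1
    simpa using this
  have h2 : (1 : ℝ) < √2 := by
    rw [Real.lt_sqrt zero_le_one]; norm_num
  have h3 : √2 < (2 : ℝ) := by
    rw [Real.sqrt_lt' two_pos]; norm_num
  have h0 : 0 < √2 - 1 := by linarith
  have h1 : √2 - 1 < 1 := by linarith
  refine ⟨_, XX (st (√2 - 1)), connected_XX _, ?_, coarsely_transitive_XX h0 h1,
    fun W Y hY ht => not_qi hα h0 h1 Y hY ht⟩
  intro x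
  have hfin : ((XX (st (√2 - 1))).neighborSet x).Finite := by
    by_contra hinf
    obtain ⟨t, ht, htc⟩ := Set.Infinite.exists_subset_card_eq hinf 15
    have := deg_bd (st (√2 - 1)) (st_le h0 h1) x t (fun y hy => ht hy)
    omega
  refine ⟨hfin, ?_⟩
  rw [Set.ncard_eq_toFinset_card _ hfin]
  apply deg_bd (st (√2 - 1)) (st_le h0 h1) x
  intro y hy
  rw [Set.Finite.mem_toFinset] at hy
  exact hy

end Pool.Agent.Results.MP_8f2dc9_al.NoTransitiveModel
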